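import Mathlib

/-! Mixed graphs and the 3-graphs of their triples without a dominating vertex. -/

set_option autoImplicit false

namespace Pool.Agent.H63.MGS

open Finset

/-- A mixed graph on `V`: each pair of distinct vertices is neutral, or carries one arrow (in one
of the two directions), or is unrelated (neither neutral nor an arrow). -/
structure MixedGraph (V : Type) where
  neutral : V → V → Prop
  arrow : V → V → Prop
  neutral_symm : ∀ x y, neutral x y → neutral y x
  arrow_asymm : ∀ x y, arrow x y → ¬ arrow y x
  not_both : ∀ x y, neutral x y → ¬ arrow x y

namespace MixedGraph

variable {V : Type}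

/-- Some vertex of `e` is neutral to all other vertices of `e`, or sends arrows to all of them. -/
def Dominated (G : MixedGraph V) (e : Finset V) : Prop :=
  ∃ x ∈ e, (∀ y ∈ e, y ≠ x → G.neutral x y) ∨ (∀ y ∈ e, y ≠ x → G.arrow x y)

open Classical in
/-- The 3-graph of a mixed graph: the triples of vertices that are not dominated. -/
noncomputable def threeGraph [Fintype V] (G : MixedGraph V) : Finset (Finset V) :=
  (univ.powersetCard 3).filter fun e => ¬ G.Dominated e

open Classical in
/-- The number of sequences of `r` vertices with an arrow from each of them to every later one. -/
noncomputable def transitiveCount [Fintype V] (G : MixedGraph V) (r : ℕ) : ℕ :=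
  (univ.filter fun f : Fin r → V => ∀ i j, i < j → G.arrow (f i) (f j)).card

/-- Every vertex is replaced by two vertices, neutral to each other. -/
def double (G : MixedGraph V) : MixedGraph (V × Fin 2) where
  neutral p q := p.1 = q.1 ∨ G.neutral p.1 q.1
  arrow p q := G.arrow p.1 q.1
  neutral_symm p q h := h.imp Eq.symm (G.neutral_symm _ _)
  arrow_asymm p q h := G.arrow_asymm _ _ h
  not_both p q h := by
    rcases h with h | h
    · intro h2
      rw [h] at h2
      exact G.arrow_asymm _ _ h2 h2
    · exact G.not_both _ _ h

/-- The mixed graph of a cycle of four classes: vertices of one class are neutral to each other,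
each vertex sends arrows to all vertices of the next class, and opposite classes are unrelated. -/
def ofClasses (c : V → Fin 4) : MixedGraph V where
  neutral x y := c x = c y
  arrow x y := c y = c x + 1
  neutral_symm x y h := h.symm
  arrow_asymm x y h h2 := by
    rw [h] at h2
    generalize c x = a at h2
    revert a
    decide
  not_both x y h h2 := by
    rw [h] at h2
    generalize c y = a at h2
    revert a
    decide

end MixedGraph

/-- No five vertices span a complete 3-graph. -/
def K53Free {V : Type} (H : Finset (Finset V)) : Prop :=
  ∀ S : Finset V, S.card = 5 → ¬ S.powersetCard 3 ⊆ H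

end Pool.Agent.H63.MGS
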