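import Mathlib

/-! Complete 3-graphs on four vertices. -/

set_option autoImplicit false

namespace Pool.Agent.H63.MGS

/-- No four vertices span a complete 3-graph. -/
def K43Free {V : Type} (H : Finset (Finset V)) : Prop :=
  ∀ S : Finset V, S.card = 4 → ¬ S.powersetCard 3 ⊆ H

end Pool.Agent.H63.MGS
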